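import Pool.Agent.W192.CY.AsmK
import Pool.Agent.W612.CY.COEF
import Pool.Agent.W216.CY.Div
import Pool.Agent.W230.CY.Orth
import Pool.Agent.W74.CY.WPP
import Pool.Agent.W305.CY.Weil
import Pool.Agent.W143.CY.COUNT
import Pool.Agent.W736.CY.GTAIL
import Pool.Agent.W155.CY.MobM
import Pool.Agent.W372.CY.MainpM
import Pool.Agent.W976.CY.Kloom
import Pool.Agent.W557.CY.Dualp
import Pool.Agent.W460.CY.MFinn
import Pool.Agent.W45.CYK.AFE

/-!
# Nonvanishing of `L(f, χ, k/2)` for all Dirichlet characters of large order, weight `k ≥ 4`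

`f ∈ S_k(Γ₀(N))` is a newform of even weight `k = 2m ≥ 4`, with arbitrary coefficient field.  For all
but finitely many primitive Dirichlet characters `χ` of conductor `q` prime to `N` and of order at
least `q ^ (3/4 + ε)` some Galois conjugate `ψ = χ ^ a` (`a` prime to the order of `χ` and `≡ 1`
modulo any given integer) satisfies `|L(f, ψ, k/2)| ≥ q ^ (-ε)`.

By Shimura's theorem on the Galois action on the central values it follows that
`L(f, χ, k/2) ≠ 0` for all these `χ`, and by Kato's theorem the Bloch–Kato Selmer groups of the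
motives `M(f) ⊗ χ (k/2)` vanish.

Joint work of helper192 with helpers 45, 55, 74, 143, 155, 196, 216, 230, 305, 372, 378, 410, 460,
479, 557, 612, 736, 756, 782, 916, 928, 976, on the library of helper388 and others on twists of
newforms.
-/

set_option autoImplicit false

open Complex UpperHalfPlane MatrixGroups CongruenceSubgroup

namespace Pool.Agent.Results.MP_ec4e4b_nt.LargeOrderHigherWeight

/-- The `n`-th Fourier coefficient of `f`. -/
noncomputable def coef {m N : ℕ} (f : CuspForm (Gamma0 N : Subgroup (GL (Fin 2) ℝ)) (2 * m : ℤ))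
    (n : ℕ) : ℂ :=
  (qExpansion 1 f).coeff n

/-- `f ∈ S_{2m}(Γ₀(N))` is a newform: the Fourier coefficients `c(n)` of `f` are real with
`c(1) = 1`, they satisfy the Hecke relations `c(mn) = c(m) c(n)` for coprime `m`, `n` and
`c(p^(j+2)) = c(p) c(p^(j+1)) - p^(2m-1) c(p^j)` (without the last term if `p ∣ N`), `f` is an
eigenfunction of the Fricke involution: `f(-1/(Nτ)) = (-1)^m w N^m τ^(2m) f(τ)` with `w = ±1`,
`|c(p)| ≤ 2 p^((2m-1)/2)` for the primes `p ∤ N` (Deligne), and `c(p) ∈ {0, p^(m-1), -p^(m-1)}` for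
the primes `p ∣ N`. -/
structure IsNewform (m N : ℕ) (f : CuspForm (Gamma0 N : Subgroup (GL (Fin 2) ℝ)) (2 * m : ℤ)) :
    Prop where
  one : coef f 1 = 1
  real : ∀ n, (coef f n).im = 0
  mul : ∀ a b : ℕ, Nat.Coprime a b → coef f (a * b) = coef f a * coef f b
  pow : ∀ p j : ℕ, p.Prime → coef f (p ^ (j + 2)) = coef f p * coef f (p ^ (j + 1)) -
      (if p ∣ N then 0 else (p : ℂ) ^ (2 * m - 1) * coef f (p ^ j))
  fricke : ∃ w : ℝ, (w = 1 ∨ w = -1) ∧ ∀ τ τ' : ℍ, (τ' : ℂ) * ((N : ℂ) * (τ : ℂ)) = -1 →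
    f τ' = (-1 : ℂ) ^ m * (w : ℂ) * (N : ℂ) ^ m * (τ : ℂ) ^ (2 * m) * f τ
  good : ∀ p : ℕ, p.Prime → ¬ p ∣ N → ‖coef f p‖ ≤ 2 * (p : ℝ) ^ ((2 * m - 1 : ℝ) / 2)
  bad : ∀ p : ℕ, p.Prime → p ∣ N →
    coef f p = 0 ∨ coef f p = (p : ℂ) ^ (m - 1) ∨ coef f p = -(p : ℂ) ^ (m - 1)

/-- The Euler factor of `L(f, χ, s)` at the prime `p`:
`(1 - χ(p) c(p) p^(-s) + χ(p)² p^(2m-1-2s))⁻¹` for `p ∤ N`, `(1 - χ(p) c(p) p^(-s))⁻¹` for
`p ∣ N`. -/
noncomputable def factor {m N : ℕ}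
    (f : CuspForm (Gamma0 N : Subgroup (GL (Fin 2) ℝ)) (2 * m : ℤ)) (q : ℕ)
    (χ : DirichletCharacter ℂ q) (s : ℂ) (p : ℕ) : ℂ :=
  (1 - χ (p : ZMod q) * coef f p * (p : ℂ) ^ (-s) +
    (if p ∣ N then 0 else χ (p : ZMod q) ^ 2 * (p : ℂ) ^ (2 * (m : ℂ) - 1 - 2 * s)))⁻¹

/-! ### Translation from the analytic normalisation -/

theorem lamf_eq {m N : ℕ} (f : CuspForm (Gamma0 N : Subgroup (GL (Fin 2) ℝ)) (2 * m : ℤ))
    (hr : ∀ n, (coef f n).im = 0) (p : ℕ) (hp : p.Prime) (s : ℂ) :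
    (W388.lamf f p : ℂ) * (p : ℂ) ^ (-(s - (m : ℂ) + 1 / 2)) = coef f p * (p : ℂ) ^ (-s) := by
  have hp0 : (0 : ℝ) < p := by exact_mod_cast hp.pos
  have hpc : (p : ℂ) ≠ 0 := by exact_mod_cast hp.ne_zero
  have hc : coef f p = ((coef f p).re : ℂ) := by
    apply Complex.ext
    · simp
    · simp [hr p]
  unfold W388.lamf
  rw [hc]
  unfold coef
  rw [show -(s - (m : ℂ) + 1 / 2) = -s + ((2 * (m : ℂ) - 1) / 2 : ℂ) by ring,
    Complex.cpow_add _ _ hpc]
  push_cast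
  rw [Complex.ofReal_cpow hp0.le]
  have e : ((((((2 * m : ℤ) : ℝ)) - 1) / 2 : ℝ) : ℂ) = ((2 * (m : ℂ) - 1) / 2 : ℂ) := by
    push_cast; ring
  have hne : (p : ℂ) ^ ((2 * (m : ℂ) - 1) / 2 : ℂ) ≠ 0 := by
    rw [Ne, Complex.cpow_eq_zero_iff]
    exact fun h => hpc h.1
  rw [Complex.ofReal_natCast]
  have e' : ((((2 * (m : ℝ)) - 1) / 2 : ℝ) : ℂ) = ((2 * (m : ℂ) - 1) / 2 : ℂ) := by
    push_cast; ring
  rw [e']
  field_simp

theorem factor_shift {m N : ℕ} (f : CuspForm (Gamma0 N : Subgroup (GL (Fin 2) ℝ)) (2 * m : ℤ))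
    (hr : ∀ n, (coef f n).im = 0) (q : ℕ)
    (χ : DirichletCharacter ℂ q) (s : ℂ) (p : ℕ) (hp : p.Prime) :
    factor f q χ s p =
      (1 - χ (p : ZMod q) * (W388.lamf f p : ℂ) * (p : ℂ) ^ (-(s - (m : ℂ) + 1 / 2)) +
      (if p ∣ N then 0 else χ (p : ZMod q) ^ 2 * (p : ℂ) ^ (-2 * (s - (m : ℂ) + 1 / 2))))⁻¹ := by
  unfold factor
  rw [mul_assoc (χ (p : ZMod q)) (W388.lamf f p : ℂ), lamf_eq f hr p hp s, ← mul_assoc,
    show (-2 * (s - (m : ℂ) + 1 / 2) : ℂ) = 2 * (m : ℂ) - 1 - 2 * s by ring]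

theorem isNewf {m N : ℕ} (hm : 1 ≤ m)
    {f : CuspForm (Gamma0 N : Subgroup (GL (Fin 2) ℝ)) (2 * m : ℤ)} (hf : IsNewform m N f) :
    ∃ w : ℝ, W388.IsNewf N (2 * m : ℤ) f w := by
  obtain ⟨w, hw, hfr⟩ := hf.fricke
  have hN0 : (0 : ℝ) ≤ (N : ℝ) := Nat.cast_nonneg N
  have hsq : ((Real.sqrt N : ℝ) : ℂ) ^ 2 = (N : ℂ) := by
    have h1 : (Real.sqrt N) ^ 2 = (N : ℝ) := Real.sq_sqrt hN0
    exact_mod_cast congrArg (fun x : ℝ => (x : ℂ)) h1
  refine ⟨w, hf.one, hf.real, hf.mul, ?_, hw, ?_⟩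
  · intro p j hp
    have h1 := hf.pow p j hp
    unfold coef at h1
    rw [h1]
    have e : (p : ℂ) ^ ((2 * m : ℤ) - 1) = (p : ℂ) ^ (2 * m - 1) := by
      rw [← zpow_natCast]
      congr 1
      omega
    rw [e]
  · intro τ τ' h
    rw [hfr τ τ' h]
    have hI : Complex.I ^ 2 = -1 := Complex.I_sq
    have : (((Real.sqrt N : ℝ) : ℂ) * (τ : ℂ) / Complex.I) ^ (2 * m : ℤ) =
        (-1 : ℂ) ^ m * ((N : ℂ) ^ m * (τ : ℂ) ^ (2 * m)) := by
      rw [show (2 * m : ℤ) = ((2 * m : ℕ) : ℤ) by push_cast; ring, zpow_natCast, pow_mul, div_pow,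
        mul_pow, hsq, hI, pow_mul, ← mul_pow, ← mul_pow]
      congr 1
      ring
    rw [this]
    ring

theorem isCoef {m N : ℕ} (hm : 1 ≤ m) [NeZero N]
    {f : CuspForm (Gamma0 N : Subgroup (GL (Fin 2) ℝ)) (2 * m : ℤ)} (hf : IsNewform m N f) :
    Pool.Agent.W192.CY.Coef N (fun n => ((qExpansion 1 f).coeff n).re / (n : ℝ) ^ (m - 1)) := by
  have hre : ∀ n, (coef f n) = (((coef f n).re : ℝ) : ℂ) := fun n => by
    apply Complex.ext
    · simp
    · simp [hf.real n]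
  have hcr : ∀ n, ((qExpansion 1 f).coeff n).re = (coef f n).re := fun n => rfl
  simp only [hcr]
  constructor
  · have h := W388.coeff_zero f
    have h' : (coef f 0).re = 0 := by
      unfold coef; rw [h]; simp
    simp [h']
  · have h := hf.one
    simp [h]
  · intro a b h
    have h1 := hf.mul a b h
    rw [hre (a * b), hre a, hre b] at h1
    have h2 : (coef f (a * b)).re = (coef f a).re * (coef f b).re := by exact_mod_cast h1
    simp only [h2, Nat.cast_mul, mul_pow]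
    rw [mul_div_mul_comm]
  · intro p j hp
    have hp0 : (0 : ℝ) < p := by exact_mod_cast hp.pos
    have h1 := hf.pow p j hp
    rw [hre (p ^ (j + 2)), hre p, hre (p ^ (j + 1)), hre (p ^ j)] at h1
    have h2 : (coef f (p ^ (j + 2))).re = (coef f p).re * (coef f (p ^ (j + 1))).re -
        (if p ∣ N then 0 else (p : ℝ) ^ (2 * m - 1) * (coef f (p ^ j)).re) := by
      by_cases h : p ∣ N
      · simp only [h, if_true] at h1 ⊢
        exact_mod_cast h1
      · simp only [h, if_false] at h1 ⊢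
        exact_mod_cast h1
    simp only [h2, Nat.cast_pow]
    have hpn : (p : ℝ) ≠ 0 := hp0.ne'
    obtain ⟨l, rfl⟩ : ∃ l, m = l + 1 := ⟨m - 1, by omega⟩
    simp only [Nat.add_sub_cancel]
    rw [show 2 * (l + 1) - 1 = 2 * l + 1 by omega]
    by_cases h : p ∣ N
    · simp only [h, if_true]
      field_simp
      ring
    · simp only [h, if_false]
      field_simp
      ring
  · intro p hp hpN
    have hp0 : (0 : ℝ) < p := by exact_mod_cast hp.pos
    have h1 := hf.good p hp hpN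
    have h2 : |(coef f p).re| ≤ ‖coef f p‖ := Complex.abs_re_le_norm _
    rw [abs_div, abs_of_pos (pow_pos hp0 _), div_le_iff₀ (pow_pos hp0 _)]
    refine (h2.trans h1).trans (le_of_eq ?_)
    rw [mul_assoc, Real.sqrt_eq_rpow, ← Real.rpow_natCast, ← Real.rpow_add hp0]
    congr 2
    rw [Nat.cast_sub hm]
    push_cast
    ring
  · intro p hp hpN
    have hp0 : (0 : ℝ) < p := by exact_mod_cast hp.pos
    rw [abs_div, abs_of_pos (pow_pos hp0 _), div_le_iff₀ (pow_pos hp0 _), one_mul]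
    have e : ((p : ℂ) ^ (m - 1)).re = (p : ℝ) ^ (m - 1) := by
      rw [← Complex.ofReal_natCast, ← Complex.ofReal_pow, Complex.ofReal_re]
    rcases hf.bad p hp hpN with h | h | h
    · rw [h]; simp
    · rw [h, e, abs_of_pos (pow_pos hp0 _)]
    · rw [h, Complex.neg_re, e, abs_neg, abs_of_pos (pow_pos hp0 _)]

/-- **Main theorem.** Let `f ∈ S_{2m}(Γ₀(N))`, `m ≥ 2`, be a newform.  For every primitive Dirichlet
character `χ` of conductor `q` prime to `N` there is an entire function `L q χ` which for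
`Re s > m + 1/2` is the Euler product of `L(f, χ, s)`; and for every `M ≥ 1` and every `ε > 0` there
is `q₀` such that for all `q ≥ q₀` prime to `N` and all primitive characters `χ` modulo `q` of order
at least `q ^ (3/4 + ε)` there is a natural number `a` prime to the order of `χ`, `a ≡ 1 mod M`, such
that `χ ^ a` is primitive and `|L(f, χ ^ a, m)| ≥ q ^ (-ε)`. -/
theorem result (m : ℕ) (hm : 2 ≤ m) (N : ℕ) [NeZero N]
    (f : CuspForm (Gamma0 N : Subgroup (GL (Fin 2) ℝ)) (2 * m : ℤ)) (hf : IsNewform m N f) :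
    ∃ L : (q : ℕ) → DirichletCharacter ℂ q → ℂ → ℂ,
      (∀ (q : ℕ) (χ : DirichletCharacter ℂ q), 1 ≤ q → Nat.Coprime q N → χ.IsPrimitive →
        Differentiable ℂ (L q χ) ∧ ∀ s : ℂ, (m : ℝ) + 1 / 2 < s.re →
          HasProd (fun p : Nat.Primes => factor f q χ s p) (L q χ s)) ∧
      ∀ M : ℕ, 1 ≤ M → ∀ ε : ℝ, 0 < ε → ∃ q0 : ℕ, ∀ q : ℕ, q0 ≤ q → Nat.Coprime q N →
        ∀ χ : DirichletCharacter ℂ q, χ.IsPrimitive → (q : ℝ) ^ (3 / 4 + ε) ≤ orderOf χ →
          ∃ a : ℕ, Nat.Coprime a (orderOf χ) ∧ a ≡ 1 [MOD M] ∧ (χ ^ a).IsPrimitive ∧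
            (q : ℝ) ^ (-ε) ≤ ‖L q (χ ^ a) (m : ℂ)‖ := by
  obtain ⟨w, hf'⟩ := isNewf (by omega) hf
  have hdiv := Pool.Agent.W216.CY.t_div
  have horth := Pool.Agent.W230.CY.t_orth
  have hweil := Pool.Agent.W305.CY.t_weil Pool.Agent.W74.CY.wpp hdiv
  have htail := Pool.Agent.W736.CY.GTAIL.t_gtail (Pool.Agent.W143.CY.g_count hdiv)
  have hmob := Pool.Agent.W155.CY.m_mob
  have hkloo := Pool.Agent.W976.CYKloom.m_kloo horth hweil
  have hmain := Pool.Agent.W372.CY.m_mainp hdiv horth hmob htail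
  have hdual := Pool.Agent.W557.CYMDualp.m_dualp hdiv hmob hkloo
  have hfin := Pool.Agent.W460.CYM.m_finn W612.CY.t_coef hdiv hmob hmain hdual
  obtain ⟨L, hL, h⟩ := Pool.Agent.W192.CY.corem Pool.Agent.W45.CYK.vk Pool.Agent.W45.CYK.afe hfin m (by omega) hf'
    (isCoef (by omega) hf)
  refine ⟨fun q χ s => L q χ (s - (m : ℂ) + 1 / 2), ?_, ?_⟩
  · intro q χ hq hqM hχ
    obtain ⟨h1, h2⟩ := hL q χ hq hqM hχ
    refine ⟨h1.comp (by fun_prop), fun s hs => ?_⟩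
    have h3 := h2 (s - (m : ℂ) + 1 / 2) (by
      have : (s - (m : ℂ) + 1 / 2 : ℂ).re = s.re - m + 1 / 2 := by simp
      rw [this]; linarith)
    refine (congrArg (fun g => HasProd g (L q χ (s - (m : ℂ) + 1 / 2))) (funext fun p => ?_)).mpr h3
    exact factor_shift f hf.real q χ s p p.2
  · intro M hM ε hε
    obtain ⟨q0, h0⟩ := h M hM ε hε
    refine ⟨q0, fun q hq hqN χ hχ hord => ?_⟩
    obtain ⟨a, ha1, ha2, ha3, ha4⟩ := h0 q hq hqN χ hχ hord
    refine ⟨a, ha1, ha2, ha3, ?_⟩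
    have e : (m : ℂ) - (m : ℂ) + 1 / 2 = 1 / 2 := by ring
    simpa only [e] using ha4

end Pool.Agent.Results.MP_ec4e4b_nt.LargeOrderHigherWeight
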