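import Pool.Agent.W263.EP.MeansB
import Pool.Agent.W263.EP.Conc

/-!
# The order of `L(s, M)` at the centre and the means of the local factors

`K` is a number field and `M` a motive of weight `-1` over `K` (a polarized Chow motive, `s = 0` is the
centre).  A system of real numbers `t v m` stands for the traces of the `m`-th power of the geometric
Frobenius at the finite place `v` on `M`, `S` is a finite set of places which contains all places of
bad reduction, and the Euler factors at the places of `S` are arbitrary inverse polynomials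
`B_v(Nv^{-s})⁻¹` without poles for `Re s ≥ 0`.  All that is used about the traces is the bound
`|t v m| ≤ D Nv^{-m/2}`, which is Deligne's theorem for all `M`, and which the last part proves for the
motives `h^{2i+1}(X)(i+1)` of all products of curves `y² = f_j(x)`, `deg f_j` odd.
-/

set_option autoImplicit false

namespace Pool.Agent.Results.MP_ec4e4b_nt.OrderByMeans

open NumberField IsDedekindDomain Filter Topology Polynomial

variable {K : Type} [Field K] [NumberField K]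

/-- `|t_v(m)| ≤ D Nv^{-m/2}` for all `v ∉ S` and all `m ≥ 1`. -/
def WeightBound (t : HeightOneSpectrum (𝓞 K) → ℕ → ℝ) (S : Finset (HeightOneSpectrum (𝓞 K)))
    (D : ℝ) : Prop :=
  0 ≤ D ∧ ∀ v, v ∉ S → ∀ m : ℕ, 1 ≤ m →
    |t v m| ≤ D * (Ideal.absNorm v.asIdeal : ℝ) ^ (-(m : ℝ) / 2)

open Classical in
/-- The Euler product `L(s, M)`.  At the places `v ∉ S` the factor is
`P_v(Nv^{-s})⁻¹ = det(1 - Frob_v Nv^{-s} | M)⁻¹ = exp(∑_{m ≥ 1} t_v(m) Nv^{-ms} / m)`; at the places of the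
finite set `S` it is `B_v(Nv^{-s})⁻¹`. -/
noncomputable def LFun (t : HeightOneSpectrum (𝓞 K) → ℕ → ℝ) (S : Finset (HeightOneSpectrum (𝓞 K)))
    (B : HeightOneSpectrum (𝓞 K) → ℂ[X]) (s : ℂ) : ℂ :=
  ∏' v : HeightOneSpectrum (𝓞 K),
    if v ∈ S then ((B v).eval (((Ideal.absNorm v.asIdeal : ℕ) : ℂ) ^ (-s)))⁻¹
    else Complex.exp (∑' m : ℕ, (t v (m + 1) : ℂ) *
      ((Ideal.absNorm v.asIdeal : ℕ) : ℂ) ^ (-((m + 1 : ℂ) * s)) / (m + 1))

/-- The number `P_v(1) = det(1 - Frob_v | M) = exp(-∑_{m ≥ 1} t_v(m) / m)`. -/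
noncomputable def centralFactor (t : HeightOneSpectrum (𝓞 K) → ℕ → ℝ)
    (v : HeightOneSpectrum (𝓞 K)) : ℝ :=
  Real.exp (-∑' m : ℕ, t v (m + 1) / (m + 1))

/-- The Riesz means `R_k(x) = ∑_{v ∉ S, Nv ≤ x} (1 - log Nv / log x)^k log P_v(1)`.  For `k = 0` it is
the logarithm of the partial product `∏_{v ∉ S, Nv ≤ x} P_v(1)`. -/
noncomputable def rieszMean (t : HeightOneSpectrum (𝓞 K) → ℕ → ℝ)
    (S : Finset (HeightOneSpectrum (𝓞 K))) (k : ℕ) (x : ℝ) : ℝ :=
  ∑ᶠ v ∈ {v : HeightOneSpectrum (𝓞 K) | v ∉ S ∧ (Ideal.absNorm v.asIdeal : ℝ) ≤ x},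
    (1 - Real.log (Ideal.absNorm v.asIdeal) / Real.log x) ^ k * Real.log (centralFactor t v)

/-- `F` is an analytic continuation of `L(s, M)` to a neighbourhood of the real half line `s > 0`. -/
def ContinuesAlongReals (t : HeightOneSpectrum (𝓞 K) → ℕ → ℝ)
    (S : Finset (HeightOneSpectrum (𝓞 K))) (B : HeightOneSpectrum (𝓞 K) → ℂ[X]) (F : ℂ → ℂ) : Prop :=
  (∀ s : ℝ, 0 < s → AnalyticAt ℂ F s) ∧ ∀ s : ℝ, 1 / 2 < s → F s = LFun t S B s

/-- `F` is an analytic continuation of `L(s, M)` to the half plane `Re s > 0`, without zeros there. -/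
def ContinuesWithoutZeros (t : HeightOneSpectrum (𝓞 K) → ℕ → ℝ)
    (S : Finset (HeightOneSpectrum (𝓞 K))) (B : HeightOneSpectrum (𝓞 K) → ℂ[X]) (F : ℂ → ℂ) : Prop :=
  DifferentiableOn ℂ F {s : ℂ | 0 < s.re} ∧ (∀ s : ℂ, 0 < s.re → F s ≠ 0) ∧
    ∀ s : ℂ, 1 / 2 < s.re → F s = LFun t S B s

/-- `F` has the order `ρ` at the centre: `log |F(s)| / log s → ρ` as `s → 0⁺`. -/
def HasOrder (F : ℂ → ℂ) (ρ : ℝ) : Prop :=
  Tendsto (fun s : ℝ => Real.log ‖F s‖ / Real.log s) (𝓝[>] 0) (𝓝 ρ)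

/-! ### Products of curves -/

/-- Number of affine points of `y² = f(x)` with coordinates in the extension of degree `m` of the
finite field `k`, that is, the field of the elements of the algebraic closure of `k` that are fixed
by the `m`-th power of the Frobenius of `k`. -/
noncomputable def affineCount (k : Type) [Field k] (f : k[X]) (m : ℕ) : ℕ :=
  Nat.card {P : AlgebraicClosure k × AlgebraicClosure k //
    P.1 ^ (Nat.card k ^ m) = P.1 ∧ P.2 ^ (Nat.card k ^ m) = P.2 ∧ P.2 ^ 2 = aeval P.1 f}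

/-- Trace of the `m`-th power of the Frobenius at `v` on `H¹` of the smooth projective curve
`y² = f(x)`, `deg f` odd: it is `q^m + 1` minus the number of points over the field with `q^m`
elements, and there is one point at infinity. -/
noncomputable def traceH1 (v : HeightOneSpectrum (𝓞 K)) (f : (𝓞 K)[X]) (m : ℕ) : ℤ :=
  haveI : v.asIdeal.IsMaximal := v.isMaximal
  letI : Field (𝓞 K ⧸ v.asIdeal) := Ideal.Quotient.field v.asIdeal
  (Ideal.absNorm v.asIdeal : ℤ) ^ m + 1 -
    (affineCount (𝓞 K ⧸ v.asIdeal) (f.map (Ideal.Quotient.mk v.asIdeal)) m + 1)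

/-- Trace of the `m`-th power of the Frobenius at `v` on `h^{2i+1}(X)(i+1)`, `X` the product of the
curves `y² = f_j(x)`: by the Künneth formula it is `q^{-m(i+1)}`, `q = Nv`, times the coefficient of
`T^{2i+1}` in `∏_j (1 + Tr(Frob^m | H¹(C_j)) T + q^m T²)`. -/
noncomputable def traceM {n : ℕ} (f : Fin n → (𝓞 K)[X]) (i : ℕ) (v : HeightOneSpectrum (𝓞 K))
    (m : ℕ) : ℝ :=
  (((∏ j, (1 + C (traceH1 v (f j) m) * X + C ((Ideal.absNorm v.asIdeal : ℤ) ^ m) * X ^ 2)).coeff
    (2 * i + 1) : ℤ) : ℝ) / (Ideal.absNorm v.asIdeal : ℝ) ^ (m * (i + 1))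

/-- The dimension of `H^{2i+1}(X)`: the coefficient of `T^{2i+1}` in `∏_j (1 + 2g_j T + T²)`,
`2g_j = deg f_j - 1`. -/
noncomputable def bettiNumber {n : ℕ} (f : Fin n → (𝓞 K)[X]) (i : ℕ) : ℕ :=
  (∏ j, (1 + C ((f j).natDegree - 1) * X + X ^ 2 : ℕ[X])).coeff (2 * i + 1)

theorem affineCount_eq (k : Type) [Field k] (f : k[X]) (m : ℕ) :
    affineCount k f m = Pool.Agent.H126T.affPts k f 1 m := by
  unfold affineCount Pool.Agent.H126T.affPts
  simp only [map_one, one_mul]

theorem tdata {t : HeightOneSpectrum (𝓞 K) → ℕ → ℝ} {S : Finset (HeightOneSpectrum (𝓞 K))} {D : ℝ}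
    (ht : WeightBound t S D) : Pool.Agent.W263.EP.TData (Pool.Agent.H341R2.sysK K)
      (Pool.Agent.W263.EP.tn (Pool.Agent.H341R2.sysK K)
        (S : Set (HeightOneSpectrum (𝓞 K))) t (-1)) D := by
  refine Pool.Agent.W263.EP.tdata ht.1 fun v hv m hm => ?_
  have h := ht.2 v hv m hm
  have e : -(m : ℝ) / 2 = -1 * m / 2 := by ring
  rw [e] at h
  exact h

theorem riesz_eq (t : HeightOneSpectrum (𝓞 K) → ℕ → ℝ) (S : Finset (Pool.Agent.H341R2.sysK K).X)
    (k : ℕ) (x : ℝ) : Pool.Agent.W263.EP.RK (Pool.Agent.H341R2.sysK K)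
      (S : Set (Pool.Agent.H341R2.sysK K).X) t (-1) k x = rieszMean t S k x := by
  unfold Pool.Agent.W263.EP.RK rieszMean
  refine finsum_mem_congr rfl fun (v : HeightOneSpectrum (𝓞 K)) _ => ?_
  have e : Pool.Agent.W263.EP.ff0 (Pool.Agent.H341R2.sysK K) t (-1) v = centralFactor t v := by
    unfold Pool.Agent.W263.EP.ff0 centralFactor
    congr 2
    refine tsum_congr fun m => ?_
    have e1 : (-(((m : ℝ) + 1) * (((-1 : ℝ) + 1) / 2))) = 0 := by ring
    rw [e1, Real.rpow_zero, mul_one]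
  rw [e]
  rfl

theorem along_iff {t : HeightOneSpectrum (𝓞 K) → ℕ → ℝ} {S : Finset (HeightOneSpectrum (𝓞 K))}
    {B : HeightOneSpectrum (𝓞 K) → ℂ[X]} {F : ℂ → ℂ} :
    Pool.Agent.W263.EP.IsContB (Pool.Agent.H341R2.sysK K) S B t (-1) F ↔
      ContinuesAlongReals t S B F := by
  unfold Pool.Agent.W263.EP.IsContB ContinuesAlongReals
  have e1 : ((-1 : ℝ) + 1) / 2 = 0 := by norm_num
  have e2 : ((-1 : ℝ) + 2) / 2 = 1 / 2 := by norm_num
  rw [e1, e2]
  rfl

theorem full_iff {t : HeightOneSpectrum (𝓞 K) → ℕ → ℝ} {S : Finset (HeightOneSpectrum (𝓞 K))}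
    {B : HeightOneSpectrum (𝓞 K) → ℂ[X]} {F : ℂ → ℂ} :
    Pool.Agent.W263.EP.IsFullB (Pool.Agent.H341R2.sysK K) S B t (-1) F ↔
      ContinuesWithoutZeros t S B F := by
  unfold Pool.Agent.W263.EP.IsFullB ContinuesWithoutZeros
  have e1 : ((-1 : ℝ) + 1) / 2 = 0 := by norm_num
  have e2 : ((-1 : ℝ) + 2) / 2 = 1 / 2 := by norm_num
  rw [e1, e2]
  rfl

theorem order_iff {F : ℂ → ℂ} {ρ : ℝ} :
    Pool.Agent.W263.EP.WOrd (((-1 : ℝ) + 1) / 2) F ρ ↔ HasOrder F ρ := by
  unfold Pool.Agent.W263.EP.WOrd HasOrder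
  have e1 : ((-1 : ℝ) + 1) / 2 = 0 := by norm_num
  rw [e1]
  simp only [sub_zero]

/-- **The order at the centre and the means of the local factors.**

Part A.  Let `t` be a system of Frobenius traces of weight `-1` over a number field `K`, as above, and
let `ρ` be a real number.  No continuation of `L(s, M)` is assumed.  The following are equivalent.

1. For some `k`, `R_k(x) = (ρ + o(1)) log log x` as `x → ∞`.
2. `L(s, M)` has an analytic continuation to a neighbourhood of the real half line `s > 0`, of order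
`ρ` at `s = 0`, and for some `k` and `C`, `R_k(x) ≤ C log log x` for all large `x`.
3. `L(s, M)` has an analytic continuation to a neighbourhood of the real half line `s > 0`, without
real zeros `s > 0`, of order `ρ` at `s = 0`, and for some `k`, `C`, `R_k(x) ≥ -C log log x` for all
large `x`.
4. `L(s, M)` has an analytic continuation to the half plane `Re s > 0`, without zeros there, of order
`ρ` at `s = 0`, and for some `k`, `C`, `|R_k(x)| ≤ C log log x` for all large `x`.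

Part B.  Let `F` be an analytic continuation of `L(s, M)` to a neighbourhood of the real half line
`s > 0`, of order `ρ` at `s = 0`, and let `k ≥ 0`.  Then, without any further hypothesis,
`R_k(x) > σ log log x` for every `σ < ρ` and arbitrarily large `x`; and if `F` has no real zeros `s > 0`,
`R_k(x) < σ log log x` for every `σ > ρ` and arbitrarily large `x`.

Part C.  If `F` is meromorphic at `0` with `ord_{s=0} F = n`, then its order in the above sense is `n`.

Part D.  The bound holds for `M = h^{2i+1}(X)(i+1)`, `D = dim H^{2i+1}(X)`, if `X` is a product of curves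
`y² = f_j(x)` over `K`, `deg f_j` odd, and `S` contains the places which divide `2` or the leading
coefficient of an `f_j`. -/
theorem result :
    (∀ (K : Type) [Field K] [NumberField K] (t : HeightOneSpectrum (𝓞 K) → ℕ → ℝ)
      (S : Finset (HeightOneSpectrum (𝓞 K))) (D : ℝ) (_ : WeightBound t S D)
      (B : HeightOneSpectrum (𝓞 K) → ℂ[X])
      (_ : ∀ v ∈ S, ∀ s : ℂ, 0 ≤ s.re →
        (B v).eval (((Ideal.absNorm v.asIdeal : ℕ) : ℂ) ^ (-s)) ≠ 0) (ρ : ℝ),
      List.TFAE [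
        ∃ k : ℕ, Tendsto (fun x : ℝ => rieszMean t S k x / Real.log (Real.log x)) atTop (𝓝 ρ),
        (∃ F : ℂ → ℂ, ContinuesAlongReals t S B F ∧ HasOrder F ρ) ∧
          ∃ (k : ℕ) (C : ℝ), ∀ᶠ x : ℝ in atTop, rieszMean t S k x ≤ C * Real.log (Real.log x),
        (∃ F : ℂ → ℂ, ContinuesAlongReals t S B F ∧ HasOrder F ρ ∧ ∀ s : ℝ, 0 < s → F s ≠ 0) ∧
          ∃ (k : ℕ) (C : ℝ), ∀ᶠ x : ℝ in atTop, -(C * Real.log (Real.log x)) ≤ rieszMean t S k x,
        (∃ F : ℂ → ℂ, ContinuesWithoutZeros t S B F ∧ HasOrder F ρ) ∧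
          ∃ (k : ℕ) (C : ℝ), ∀ᶠ x : ℝ in atTop,
            |rieszMean t S k x| ≤ C * Real.log (Real.log x)]) ∧
    (∀ (K : Type) [Field K] [NumberField K] (t : HeightOneSpectrum (𝓞 K) → ℕ → ℝ)
      (S : Finset (HeightOneSpectrum (𝓞 K))) (D : ℝ) (_ : WeightBound t S D)
      (B : HeightOneSpectrum (𝓞 K) → ℂ[X])
      (_ : ∀ v ∈ S, ∀ s : ℂ, 0 ≤ s.re →
        (B v).eval (((Ideal.absNorm v.asIdeal : ℕ) : ℂ) ^ (-s)) ≠ 0)
      (F : ℂ → ℂ) (_ : ContinuesAlongReals t S B F) (ρ : ℝ) (_ : HasOrder F ρ) (k : ℕ),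
      (∀ σ : ℝ, σ < ρ → ∃ᶠ x : ℝ in atTop, σ * Real.log (Real.log x) < rieszMean t S k x) ∧
      ((∀ s : ℝ, 0 < s → F s ≠ 0) →
        ∀ σ : ℝ, ρ < σ → ∃ᶠ x : ℝ in atTop, rieszMean t S k x < σ * Real.log (Real.log x))) ∧
    (∀ (F : ℂ → ℂ) (n : ℤ), MeromorphicAt F 0 → meromorphicOrderAt F 0 = n → HasOrder F n) ∧
    (∀ (K : Type) [Field K] [NumberField K] (n : ℕ) (f : Fin n → (𝓞 K)[X])
      (_ : ∀ j, Odd (f j).natDegree) (S : Finset (HeightOneSpectrum (𝓞 K)))
      (_ : ∀ v, v ∉ S → ∀ j, 2 * (f j).leadingCoeff ∉ v.asIdeal) (i : ℕ),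
      WeightBound (traceM f i) S (bettiNumber f i)) := by
  have e1 : ((-1 : ℝ) + 1) / 2 = 0 := by norm_num
  refine ⟨?_, ?_, ?_, ?_⟩
  · intro K _ _ t S D ht B hB ρ
    have hB' : ∀ v ∈ S, ∀ s : ℂ, ((-1 : ℝ) + 1) / 2 ≤ s.re →
        (B v).eval ((((Pool.Agent.H341R2.sysK K).N v : ℕ) : ℂ) ^ (-s)) ≠ 0 := by
      intro v hv s hs
      rw [e1] at hs
      exact hB v hv s hs
    have key := Pool.Agent.W263.EP.means_tfaeB (S := Pool.Agent.H341R2.sysK K) (Bs := S) (B := B)
      (tr := t) (ω := (-1 : ℝ)) (tdata ht) hB' ρ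
    simp only [along_iff, full_iff, order_iff] at key
    simp only [e1] at key
    have hR : ∀ k x, rieszMean t S k x = _ := fun k x => (riesz_eq t S k x).symm
    simp only [hR]
    exact key
  · intro K _ _ t S D ht B hB F hF ρ hρ k
    have hB' : ∀ v ∈ S, ∀ s : ℂ, ((-1 : ℝ) + 1) / 2 ≤ s.re →
        (B v).eval ((((Pool.Agent.H341R2.sysK K).N v : ℕ) : ℂ) ^ (-s)) ≠ 0 := by
      intro v hv s hs
      rw [e1] at hs
      exact hB v hv s hs
    refine ⟨fun σ hσ => ?_, fun hne σ hσ => ?_⟩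
    · have key := Pool.Agent.W263.EP.means_upper (S := Pool.Agent.H341R2.sysK K) (Bs := S) (B := B)
        (tr := t) (ω := (-1 : ℝ)) (tdata ht) hB' (along_iff.mpr hF) (order_iff.mpr hρ) k hσ
      have hR : ∀ k x, rieszMean t S k x = _ := fun k x => (riesz_eq t S k x).symm
      simp only [hR]
      exact key
    · have key := Pool.Agent.W263.EP.means_lower (S := Pool.Agent.H341R2.sysK K) (Bs := S) (B := B)
        (tr := t) (ω := (-1 : ℝ)) (tdata ht) hB' (along_iff.mpr hF) (order_iff.mpr hρ)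
        (fun s hs => hne s (by rw [e1] at hs; exact hs)) k hσ
      have hR : ∀ k x, rieszMean t S k x = _ := fun k x => (riesz_eq t S k x).symm
      simp only [hR]
      exact key
  · intro F n hF hn
    have h := Pool.Agent.W263.EP.wOrd_of_mero (F := F) (c := 0) (n := n) (by simpa using hF)
      (by simpa using hn)
    unfold Pool.Agent.W263.EP.WOrd at h
    simp only [sub_zero] at h
    exact h
  · intro K _ _ n f hodd S hS i
    refine ⟨by positivity, fun v hv m hm => ?_⟩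
    have h1 := Pool.Agent.W263.EP.trHk_bound f hodd (hS v hv) (2 * i + 1) m hm
    have h2 : ∀ j, traceH1 v (f j) m = Pool.Agent.H126T.traceH1 v (f j) 1 m := by
      intro j
      unfold traceH1 Pool.Agent.H126T.traceH1
      rw [map_one, affineCount_eq]
      rfl
    have h3 : traceM f i v m = (Pool.Agent.W263.EP.trHk v f (2 * i + 1) m : ℝ) /
        (Ideal.absNorm v.asIdeal : ℝ) ^ (m * (i + 1)) := by
      unfold traceM Pool.Agent.W263.EP.trHk
      simp only [h2]
      rfl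
    have hq : (0 : ℝ) < Ideal.absNorm v.asIdeal := (Pool.Agent.H341R2.sysK K).N_pos v
    rw [h3, abs_div, abs_of_pos (pow_pos hq _), div_le_iff₀ (pow_pos hq _)]
    refine h1.trans (le_of_eq ?_)
    rw [mul_assoc, ← Real.rpow_natCast, ← Real.rpow_add hq]
    unfold bettiNumber Pool.Agent.W263.EP.betti
    congr 2
    push_cast
    ring

end Pool.Agent.Results.MP_ec4e4b_nt.OrderByMeans
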