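import Pool.Agent.W524.SH.Mean

/-!
# The order of vanishing at the centre as a law with a rate, for motives of weight `-1`

`K` is a number field, `M` a motive of weight `-1` over `K`, for instance a polarized Chow motive.  A system
of real numbers `t v m` stands for the traces of the `m`-th power of the geometric Frobenius at `v` on
`M`; `S` is a finite set of places which contains all places of bad reduction, and the Euler factors at
the places of `S` are arbitrary inverse polynomials `B_v(Nv^{-s})⁻¹` without poles for `Re s ≥ 0`.  All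
that is used about the traces is the bound `|t v m| ≤ D Nv^{-m/2}` (Deligne, `D = rank M`).

`L(s, M)` is supposed to continue analytically to `Re s > -1`, with polynomial growth there; this is
known for `M = h¹(E)(1)`, `E` an elliptic curve over `ℚ`, and for all motives of cusp forms.  The theorem:
the Riemann hypothesis for `L(s, M)` together with the formulas `ord_{s=0} L(s, M) = q` and
`|L*(0, M)| = Λ` is equivalent to `P*(x) ~ e^{γ q} Λ⁻¹ (log x)^q` in logarithmic mean, where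
`P(x) = ∏_{Nv ≤ x} P_v(1)` is the product of the local factors at the centre; and if this holds with
any error which is `o(1)` in logarithmic mean, then it holds in mean square over `[x, x²]` with the error
`O(1 / log x)`.  With `q = dim H¹_f - dim H⁰` this is a translation of the Bloch-Kato formula together with
the Riemann hypothesis into a law for Frobenius traces.
-/

set_option autoImplicit false

namespace Pool.Agent.Results.MP_ec4e4b_nt.OrderWithRate

open NumberField IsDedekindDomain Filter Topology Polynomial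

variable {K : Type} [Field K] [NumberField K]

/-- `|t_v(m)| ≤ D Nv^{-m/2}` for all `v ∉ S` and all `m ≥ 1`. -/
def WeightBound (t : HeightOneSpectrum (𝓞 K) → ℕ → ℝ)
    (S : Finset (HeightOneSpectrum (𝓞 K))) (D : ℝ) : Prop :=
  0 ≤ D ∧ ∀ v, v ∉ S → ∀ m : ℕ, 1 ≤ m →
    |t v m| ≤ D * (Ideal.absNorm v.asIdeal : ℝ) ^ (-(m : ℝ) / 2)

/-- The Euler factors at the places of `S` have no poles for `Re s ≥ 0`. -/
def BadFactors (S : Finset (HeightOneSpectrum (𝓞 K)))
    (B : HeightOneSpectrum (𝓞 K) → ℂ[X]) : Prop :=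
  ∀ v ∈ S, ∀ s : ℂ, 0 ≤ s.re →
    (B v).eval (((Ideal.absNorm v.asIdeal : ℕ) : ℂ) ^ (-s)) ≠ 0

open Classical in
/-- The Euler product `L(s, M)`.  At the places `v ∉ S` the factor is
`P_v(Nv^{-s})⁻¹ = exp(∑_{m ≥ 1} t_v(m) Nv^{-ms} / m)`, `P_v(T) = det(1 - Frob_v T | M)`; at the places of
the finite set `S` it is `B_v(Nv^{-s})⁻¹`. -/
noncomputable def LFun (t : HeightOneSpectrum (𝓞 K) → ℕ → ℝ) (S : Finset (HeightOneSpectrum (𝓞 K)))
    (B : HeightOneSpectrum (𝓞 K) → ℂ[X]) (s : ℂ) : ℂ :=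
  ∏' v : HeightOneSpectrum (𝓞 K),
    if v ∈ S then ((B v).eval (((Ideal.absNorm v.asIdeal : ℕ) : ℂ) ^ (-s)))⁻¹
    else Complex.exp (∑' m : ℕ, (t v (m + 1) : ℂ) *
      ((Ideal.absNorm v.asIdeal : ℕ) : ℂ) ^ (-((m + 1 : ℂ) * s)) / (m + 1))

/-- `F` is an analytic continuation of `L(s, M)` to the half plane `Re s > -1`, of polynomial growth
there. -/
def Continues (t : HeightOneSpectrum (𝓞 K) → ℕ → ℝ) (S : Finset (HeightOneSpectrum (𝓞 K)))
    (B : HeightOneSpectrum (𝓞 K) → ℂ[X]) (F : ℂ → ℂ) : Prop :=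
  (∀ s : ℂ, -1 < s.re → DifferentiableAt ℂ F s) ∧
  (∀ s : ℂ, 1 / 2 < s.re → F s = LFun t S B s) ∧
    ∃ (C : ℝ) (A : ℕ), ∀ s : ℂ, -1 < s.re → ‖F s‖ ≤ C * (1 + ‖s‖) ^ A

/-- The number `P_v(1) = det(1 - Frob_v | M) = exp(-∑_{m ≥ 1} t_v(m) / m)`. -/
noncomputable def centralFactor (t : HeightOneSpectrum (𝓞 K) → ℕ → ℝ)
    (v : HeightOneSpectrum (𝓞 K)) : ℝ :=
  Real.exp (-∑' m : ℕ, t v (m + 1) / (m + 1))

/-- The partial product `P(x) = ∏_{v ∉ S, Nv ≤ x} P_v(1)`. -/
noncomputable def partialProduct (t : HeightOneSpectrum (𝓞 K) → ℕ → ℝ)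
    (S : Finset (HeightOneSpectrum (𝓞 K))) (x : ℝ) : ℝ :=
  ∏ᶠ v ∈ {v : HeightOneSpectrum (𝓞 K) | v ∉ S ∧ (Ideal.absNorm v.asIdeal : ℝ) ≤ x},
    centralFactor t v

/-- The corrected product
`P*(x) = |∏_{v ∈ S} B_v(1)| · P(x) · exp(∑_{v ∉ S, √x < Nv ≤ x} t_v(2) / 2)`. -/
noncomputable def starProduct (t : HeightOneSpectrum (𝓞 K) → ℕ → ℝ)
    (S : Finset (HeightOneSpectrum (𝓞 K))) (B : HeightOneSpectrum (𝓞 K) → ℂ[X]) (x : ℝ) : ℝ :=
  ‖∏ v ∈ S, (B v).eval 1‖ *
    (partialProduct t S x * Real.exp (∑ᶠ v ∈ {v : HeightOneSpectrum (𝓞 K) | v ∉ S ∧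
      √x < (Ideal.absNorm v.asIdeal : ℝ) ∧ (Ideal.absNorm v.asIdeal : ℝ) ≤ x}, t v 2 / 2))

/-- The absolute value `|F^{(r)}(0)| / r!` of the leading coefficient. -/
noncomputable def leadAbs (F : ℂ → ℂ) (r : ℕ) : ℝ := ‖iteratedDeriv r F 0‖ / (r.factorial : ℝ)

/-- `Q(x) ~ A (log x)^q` in logarithmic mean:
`(1 / log X) ∫_2^X |log (Q(x) / (A (log x)^q))| dx/x → 0`. -/
def InLogMean (Q : ℝ → ℝ) (q A : ℝ) : Prop :=
  Tendsto (fun X : ℝ => (Real.log X)⁻¹ *
    ∫ x in Set.Ioc 2 X, |Real.log (Q x / (A * Real.log x ^ q))| / x) atTop (𝓝 0)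

/-- For some `C` and all large `x`, `∫_x^{x²} log² (Q(y) / (A (log y)^q)) dy/y ≤ C / log x`. -/
def WithRate (Q : ℝ → ℝ) (q A : ℝ) : Prop :=
  ∃ C : ℝ, ∀ᶠ x : ℝ in atTop,
    ∫ y in Set.Ioc x (x ^ 2), Real.log (Q y / (A * Real.log y ^ q)) ^ 2 / y ≤ C / Real.log x

theorem cen : ((-1 : ℝ) + 1) / 2 = 0 := by norm_num

theorem cen2 : ((-1 : ℝ) + 2) / 2 = 1 / 2 := by norm_num

theorem hcc : ((((-1 : ℝ) + 1) / 2 : ℝ) : ℂ) = 0 := by rw [cen, Complex.ofReal_zero]

theorem QQ_eq (t : HeightOneSpectrum (𝓞 K) → ℕ → ℝ) (S : Finset (HeightOneSpectrum (𝓞 K)))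
    (B : HeightOneSpectrum (𝓞 K) → ℂ[X]) :
    Pool.Agent.W524.LV.QQ (Pool.Agent.H341R2.sysK K) S B t (-1) = starProduct t S B := by
  funext x
  unfold Pool.Agent.W524.LV.QQ starProduct
  congr 1
  · unfold Pool.Agent.W263.EP.bc Pool.Agent.W263.EP.BB
    congr 1
    refine Finset.prod_congr rfl fun v _ => ?_
    rw [hcc, neg_zero, Complex.cpow_zero]
  · unfold Pool.Agent.W263.EP.PS
    congr 1
    · unfold Pool.Agent.W263.EP.PP partialProduct
      refine finprod_mem_congr rfl fun (v : HeightOneSpectrum (𝓞 K)) _ => ?_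
      unfold Pool.Agent.W263.EP.ff0 centralFactor
      congr 2
      refine tsum_congr fun m => ?_
      rw [cen, mul_zero, neg_zero, Real.rpow_zero, mul_one]
    · congr 1
      refine finsum_mem_congr rfl fun (v : HeightOneSpectrum (𝓞 K)) _ => ?_
      rw [show (-((-1 : ℝ) + 1)) = 0 by norm_num, Real.rpow_zero, mul_one]

/-- **The order of vanishing at the centre as a law with a rate.**

Let `t` be a system of Frobenius traces of weight `-1` over a number field `K`, as above, and let `F` be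
an analytic continuation of `L(s, M)` to `Re s > -1` of polynomial growth.  Then `r = ord_{s=0} F` is finite,
`|F^{(r)}(0)| / r! > 0`, and:

A. For a real number `q` the following are equivalent: `F(s) ≠ 0` for `Re s > 0` and `r = q`; for some
`A > 0`, `P*(x) ~ A (log x)^q` in logarithmic mean; for some `A > 0`, `∫_x^{x²} log² (P*(y) / (A (log y)^q)) dy/y`
is `O(1 / log x)`.

B. For real `q` and `Λ > 0`, with `A = e^{γ q} / Λ`, the following are equivalent: `F(s) ≠ 0` for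
`Re s > 0`, `r = q` and `|F^{(r)}(0)| / r! = Λ`; `P*(x) ~ A (log x)^q` in logarithmic mean;
`∫_x^{x²} log² (P*(y) / (A (log y)^q)) dy/y = O(1 / log x)`. -/
theorem result (K : Type) [Field K] [NumberField K] (t : HeightOneSpectrum (𝓞 K) → ℕ → ℝ)
    (S : Finset (HeightOneSpectrum (𝓞 K))) (D : ℝ) (ht : WeightBound t S D)
    (B : HeightOneSpectrum (𝓞 K) → ℂ[X]) (hB : BadFactors S B)
    (F : ℂ → ℂ) (hF : Continues t S B F) :
    ∃ r : ℕ, analyticOrderAt F 0 = r ∧ 0 < leadAbs F r ∧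
    (∀ q : ℝ, List.TFAE [
      (∀ s : ℂ, 0 < s.re → F s ≠ 0) ∧ (r : ℝ) = q,
      ∃ A : ℝ, 0 < A ∧ InLogMean (starProduct t S B) q A,
      ∃ A : ℝ, 0 < A ∧ WithRate (starProduct t S B) q A]) ∧
    ∀ q Λ : ℝ, 0 < Λ → List.TFAE [
      (∀ s : ℂ, 0 < s.re → F s ≠ 0) ∧ (r : ℝ) = q ∧ leadAbs F r = Λ,
      InLogMean (starProduct t S B) q (Real.exp (q * Real.eulerMascheroniConstant) / Λ),
      WithRate (starProduct t S B) q (Real.exp (q * Real.eulerMascheroniConstant) / Λ)] := by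
  have E : Pool.Agent.W263.EP.TData (Pool.Agent.H341R2.sysK K)
      (Pool.Agent.W263.EP.tn (Pool.Agent.H341R2.sysK K)
        (S : Set (HeightOneSpectrum (𝓞 K))) t (-1 : ℝ)) D :=
    Pool.Agent.W263.EP.tdata ht.1 fun v hv m hm => by
      have h := ht.2 v hv m hm
      rwa [show (-(m : ℝ) / 2) = (-1 : ℝ) * m / 2 by ring] at h
  have hB' : ∀ x ∈ S, ∀ s : ℂ, ((-1 : ℝ) + 1) / 2 ≤ s.re →
      (B x).eval (((Ideal.absNorm x.asIdeal : ℕ) : ℂ) ^ (-s)) ≠ 0 := by
    intro x hx s hs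
    rw [cen] at hs
    exact hB x hx s hs
  have hd : ∀ s : ℂ, ((-1 : ℝ) + 1) / 2 - 1 < s.re → DifferentiableAt ℂ F s := fun s hs =>
    hF.1 s (by rw [cen] at hs; linarith)
  have he : ∀ s : ℂ, ((-1 : ℝ) + 2) / 2 < s.re →
      F s = Pool.Agent.W263.EP.LFB (Pool.Agent.H341R2.sysK K) S B t s := by
    intro s hs
    rw [cen2] at hs
    exact hF.2.1 s hs
  have hg : ∃ (C : ℝ) (A : ℕ), ∀ s : ℂ, ((-1 : ℝ) + 1) / 2 - 1 < s.re →
      ‖F s‖ ≤ C * (1 + ‖s‖) ^ A := by
    obtain ⟨C, A, h⟩ := hF.2.2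
    exact ⟨C, A, fun s hs => h s (by rw [cen] at hs; linarith)⟩
  have hF' : Pool.Agent.W263.EP.IsContB (Pool.Agent.H341R2.sysK K) S B t (-1 : ℝ) F :=
    Pool.Agent.W524.SH.isContB hd he
  have hA : AnalyticAt ℂ F ((((-1 : ℝ) + 1) / 2 : ℝ) : ℂ) :=
    Pool.Agent.W524.SH.an_centre (ω := (-1 : ℝ)) hd
  obtain ⟨r, hr⟩ := Pool.Agent.W524.LV.order_finite (S := Pool.Agent.H341R2.sysK K) (Bs := S)
    (B := B) (tr := t) (ω := (-1 : ℝ)) E hB' hF' hA
  have hL : Pool.Agent.W524.LV.lead F (((-1 : ℝ) + 1) / 2) r = leadAbs F r := by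
    unfold Pool.Agent.W524.LV.lead leadAbs
    rw [hcc]
  have hpos : 0 < leadAbs F r := by
    rw [← hL]
    exact (Pool.Agent.W263.EP.lead_limit_at hA hr).1
  have T : ∀ (q A : ℝ), 0 < A → List.TFAE [
      (∀ s : ℂ, 0 < s.re → F s ≠ 0) ∧ (r : ℝ) = q ∧
        A = Real.exp (q * Real.eulerMascheroniConstant) / leadAbs F r,
      InLogMean (starProduct t S B) q A,
      Pool.Agent.W263.MS.InL2 (starProduct t S B) q A,
      WithRate (starProduct t S B) q A] := by
    intro q A hA0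
    have T := Pool.Agent.W524.SH.rate_tfae (S := Pool.Agent.H341R2.sysK K) (Bs := S)
      (B := B) (tr := t) (ω := (-1 : ℝ)) E hB' hd he hr hg q hA0
    rw [hL, QQ_eq] at T
    simp only [cen] at T
    exact T
  refine ⟨r, by rw [← hcc]; exact hr, hpos, fun q => ?_, fun q Λ hΛ => ?_⟩
  · have hq : 0 < Real.exp (q * Real.eulerMascheroniConstant) / leadAbs F r :=
      div_pos (Real.exp_pos _) hpos
    tfae_have 1 → 3 := by
      intro h
      have h9 := (T q _ hq).out 0 3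
      exact ⟨_, hq, h9.mp ⟨h.1, h.2, rfl⟩⟩
    tfae_have 3 → 2 := by
      rintro ⟨A, hA0, h⟩
      have h9 := (T q A hA0).out 3 1
      exact ⟨A, hA0, h9.mp h⟩
    tfae_have 2 → 1 := by
      rintro ⟨A, hA0, h⟩
      have h9 := (T q A hA0).out 1 0
      exact ⟨(h9.mp h).1, (h9.mp h).2.1⟩
    tfae_finish
  · have hq : 0 < Real.exp (q * Real.eulerMascheroniConstant) / Λ := div_pos (Real.exp_pos _) hΛ
    have e1 : Real.exp (q * Real.eulerMascheroniConstant) / Λ =
        Real.exp (q * Real.eulerMascheroniConstant) / leadAbs F r ↔ leadAbs F r = Λ := by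
      constructor
      · intro h
        rw [div_eq_div_iff hΛ.ne' hpos.ne'] at h
        exact mul_left_cancel₀ (Real.exp_pos _).ne' h
      · intro h
        rw [h]
    have T' := T q _ hq
    rw [e1] at T'
    tfae_have 1 ↔ 2 := T'.out 0 1
    tfae_have 1 ↔ 3 := T'.out 0 3
    tfae_finish

end Pool.Agent.Results.MP_ec4e4b_nt.OrderWithRate
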