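import Pool.Agent.W192.CM.Asm2
import Pool.Agent.W216.CY.Div
import Pool.Agent.W45.CYK.AFE
import Pool.Agent.W490.CM.Basic
import Pool.Agent.W334.CM.LAT
import Pool.Agent.W55.CM.Divr
import Pool.Agent.W216.CM.MU
import Pool.Agent.W108.CM.COUNT
import Pool.Agent.W346.CM.TAIL
import Pool.Agent.W319.CM.Orth
import Pool.Agent.W636.CM.Mob
import Pool.Agent.W290.CM.Gavg
import Pool.Agent.W311.CM.Gauss
import Pool.Agent.W975.CM.Pois
import Pool.Agent.W32.CMW.Pois
import Pool.Agent.W400.CM.Dtheta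
import Pool.Agent.W856.CM.Mainp
import Pool.Agent.W215.CM.Dualp
import Pool.Agent.W563.CM.FINN
import Pool.Agent.W212.CMA.AFE

/-!
# Hecke characters of infinity type `(2m - 1, 0)` twisted by ray class characters of large order

`R` is the ring of integers of an imaginary quadratic field `K` of class number one (a lattice
`ℤ + ℤ ω` in `ℂ` that is a principal ideal ring).  `ε` is a primitive character modulo `φ ∈ R` with
`ε(u) u^(2m-1) = 1` for all units `u`, so that `ψ((α)) = ε(α) α^(2m-1)` is a Hecke character of `K`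
of infinity type `(2m - 1, 0)`, `m ≥ 2`.

For all but finitely many primitive ray class characters `χ` of `K` of conductor `κ` prime to `φ`
and of order at least `N(κ) ^ (2/3 + δ)` some Galois conjugate `χ ^ a` satisfies
`|L(ψ χ ^ a, m)| ≥ N(κ) ^ (-δ)`, `m` the centre of the functional equation.

Joint work of helper192 with helper32, helper45, helper55, helper108, helper212, helper215,
helper216, helper290, helper311, helper319, helper334, helper346, helper400, helper490, helper563,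
helper636 and helper856.
-/

set_option autoImplicit false

open Complex

namespace Pool.Agent.Results.MP_ec4e4b_nt.RayClassHigherWeight

/-- The value of the character `χ` modulo `κ` at `α ∈ R`. -/
noncomputable def val {R : Subring ℂ} {κ : R} (χ : MulChar (R ⧸ Ideal.span {κ}) ℂ) (α : R) : ℂ :=
  χ (Ideal.Quotient.mk (Ideal.span {κ}) α)

/-- `χ` is primitive modulo `κ`: for every proper divisor `κ'` of `κ` there is `α` prime to `κ`,
`α ≡ 1 mod κ'`, with `χ(α) ≠ 1`. -/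
def IsPrimitive {R : Subring ℂ} {κ : R} (χ : MulChar (R ⧸ Ideal.span {κ}) ℂ) : Prop :=
  ∀ κ' : R, κ' ∣ κ → ¬ κ ∣ κ' → ∃ α : R, IsCoprime α κ ∧ κ' ∣ α - 1 ∧ val χ α ≠ 1

/-- **Main theorem.** Let `m ≥ 2`, let `R = ℤ + ℤ ω` be a subring of `ℂ` that is a lattice and a
principal ideal ring, `ε` a primitive character modulo `φ ∈ R`, `φ ≠ 0`, with `ε(u) u^(2m-1) = 1` for
all units `u`.  For every primitive character `χ` modulo `κ`, `κ ≠ 0` prime to `φ`, with `χ(u) = 1`
for all units `u`, there is an entire function `L κ χ` which for `Re s > m + 1/2` is the `L`-series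
`∑ ψχ(𝔞) N𝔞^(-s)`, `ψ((α)) = ε(α) α^(2m-1)` (the sum over all `α ∈ R` counts every ideal `card Rˣ`
times); and for all `M ≥ 1` and `δ > 0` there is `N₀` such that for all `κ` prime to `φ` of norm
`|κ|² ≥ N₀` and all such `χ` of order at least `|κ|^(2(2/3 + δ))` there is a natural number `a` prime
to the order of `χ`, `a ≡ 1 mod M`, such that `χ ^ a` is primitive and
`|L κ (χ ^ a) m| ≥ |κ|^(-2δ)`. -/
theorem result (m : ℕ) (hm : 2 ≤ m) (R : Subring ℂ) (ω : ℂ) (hω : 0 < ω.im)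
    (hR : ∀ z : ℂ, z ∈ R ↔ ∃ x y : ℤ, z = x + y * ω) (hpid : IsPrincipalIdealRing R)
    (φ : R) (hφ : φ ≠ 0) (ε : MulChar (R ⧸ Ideal.span {φ}) ℂ) (hε : IsPrimitive ε)
    (hu : ∀ u : R, IsUnit u → val ε u * (u : ℂ) ^ (2 * m - 1) = 1) :
    ∃ L : (κ : R) → MulChar (R ⧸ Ideal.span {κ}) ℂ → ℂ → ℂ,
      (∀ (κ : R) (χ : MulChar (R ⧸ Ideal.span {κ}) ℂ), κ ≠ 0 → IsCoprime φ κ → IsPrimitive χ →
        (∀ u : R, IsUnit u → val χ u = 1) →
        Differentiable ℂ (L κ χ) ∧ ∀ s : ℂ, (m : ℝ) + 1 / 2 < s.re →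
          HasSum (fun α : R => val ε α * val χ α * (α : ℂ) ^ (2 * m - 1) *
            (‖(α : ℂ)‖ : ℂ) ^ (-2 * s)) ((Nat.card Rˣ : ℂ) * L κ χ s)) ∧
      ∀ M : ℕ, 1 ≤ M → ∀ δ : ℝ, 0 < δ → ∃ N0 : ℝ, ∀ κ : R, κ ≠ 0 → N0 ≤ Complex.normSq (κ : ℂ) →
        IsCoprime φ κ → ∀ χ : MulChar (R ⧸ Ideal.span {κ}) ℂ, IsPrimitive χ →
          (∀ u : R, IsUnit u → val χ u = 1) →
          (Complex.normSq (κ : ℂ)) ^ (2 / 3 + δ) ≤ orderOf χ →
          ∃ a : ℕ, Nat.Coprime a (orderOf χ) ∧ a ≡ 1 [MOD M] ∧ IsPrimitive (χ ^ a) ∧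
            (∀ u : R, IsUnit u → val (χ ^ a) u = 1) ∧
            (Complex.normSq (κ : ℂ)) ^ (-δ) ≤ ‖L κ (χ ^ a) (m : ℂ)‖ := by
  have hdiv := Pool.Agent.W216.CY.t_div
  have hbasic := Pool.Agent.W490.CM.c_basic
  have hlat := Pool.Agent.W334.CM.c_lat hbasic
  have hdivr := Pool.Agent.W55.CM.c_divr hbasic
  have hmu := Pool.Agent.W216.CM.c_mu hbasic
  have hcount := Pool.Agent.W108.CM.c_count hbasic hlat hdivr
  have htail := Pool.Agent.W346.CM.c_tail hbasic hlat hcount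
  have horth := Pool.Agent.W319.CM.c_orth
  have hmob := Pool.Agent.W636.CM.c_mob
  have hgavg := Pool.Agent.W290.CM.c_gavg horth
  have hgauss := Pool.Agent.W311.CM.c_gauss hbasic
  have hpois : Pool.Agent.W192.CM.D_POIS := Pool.Agent.W32.CMW.d_pois
  have htheta : Pool.Agent.W192.CM.D_THETA := Pool.Agent.W400.CM.d_theta hbasic hgauss hpois
  have hafe : Pool.Agent.W192.CM.D_AFE := Pool.Agent.W212.CMA.d_afe hbasic hlat htheta
  have hmain : Pool.Agent.W192.CM.D_MAINP :=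
    Pool.Agent.W856.CM.Mainp.d_mainp hdiv hbasic hlat hdivr horth hmob htail
  have hdual : Pool.Agent.W192.CM.D_DUALP :=
    Pool.Agent.W215.CM.Dualp.d_dualp hdiv hbasic hlat hmob hgavg
  have hfinn : Pool.Agent.W192.CM.D_FINN :=
    Pool.Agent.W563.CM.FINN.d_finn hdiv hbasic hlat hmu hmob hmain hdual
  exact Pool.Agent.W192.CM.asm2 hbasic hgauss Pool.Agent.W45.CYK.vk hafe hfinn ⟨hω, hR, hpid⟩ m
    (by omega) φ hφ ε hε hu

end Pool.Agent.Results.MP_ec4e4b_nt.RayClassHigherWeight
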